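import Pool.Agent.L5helper25.TowN
import Pool.Agent.N145.SX.All3
import Pool.Agent.R882.HPM

/-!
# General type and hyperbolicity for the images of towers of coverings

A tower (`Tower`) is a sequence `V 0 ⇢ V 1 ⇢ ... ⇢ V k` of generically finite rational maps between
varieties of dimension `n`, where `V k` is any uniruled variety, or any variety covered by rational or
elliptic curves (for instance a product of an elliptic curve and an arbitrary variety, or an elliptic
fibration over any base), and every `V i`, `i < k`, has many canonical forms relative to `V (i + 1)`.
This means (`HasForms`) that `V (i + 1)` is generically finite over a product of varieties `X l` (its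
function field is the compositum of the function fields of the `X l`), and there are rational canonical
forms `ω j` on `V i` such that

* `(∏ s l) * ω j` is a regular canonical form on the smooth projective models of `V i` for all `s l` in
  sets `H l` of rational functions on `X l`, which separate `r i` general points of `X l`,
* for every covering `V i ⇢ V' ⇢ V (i + 1)`, where `V' ⇢ V (i + 1)` is not birational, some `ω j` has a
  nonzero trace on `V'` (if there is no covering strictly between `V i` and `V (i + 1)` this only
  means that some `ω j` is not zero).

Here `r 0 = 2 d` and `r (i + 1) = r i / deg (V i / V (i + 1))`. For example `V i` can be a smooth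
hypersurface of degree at least `r i + n + 1` in `P ^ (n + 1)` with its projection to `P ^ n` from a
general point, or a covering of any variety whose branch divisors are sufficiently large, in particular
of the product of an elliptic curve and any variety.

Let `V 0 ⇢ X` be any dominant rational map of degree `d` to a projective variety `X`, smooth or not;
nothing is assumed about the map (it need not be a quotient by a group and has no relation to the tower).

(1) If `V k` is uniruled then `X` is of general type if and only if it is not uniruled; and if `X` is
pseudo-geometrically hyperbolic, then `X` is of general type, as conjectured by Lang. It is also of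
general type if it is pseudo-bounded: off a proper closed subset of `X`, the degrees of the morphisms
from each curve to `X` are bounded.

(2) If `V k` is covered by rational or elliptic curves, then `X` is of general type if and only if it is
not covered by rational or elliptic curves. Rational and elliptic curves have infinitely many maps to
themselves which fix a given point; so if `X` is covered by such curves then it is not
pseudo-geometrically hyperbolic (this remark is not part of the Lean proof).

Proof: let `V i ⇢ X` be a rational map of degree at most `r i / 2`, and suppose that `X` is not of general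
type. Then two generic points of `X` have the same image under the canonical map, or all traces of
the forms `(∏ s l) * ω j` on `X` vanish. This is a relation between the points of `V i` over these two
points, multilinear in the values of the `s l`. At most `r i` points of `X l` occur, and they are
separated. It follows that the traces of the `ω j` on the image `V'` of `V i` in `X × V (i + 1)` vanish,
or that the two points of `X` are images of points of `V i` over the same point of `V (i + 1)`, which is
only possible for finitely many pairs, so that the canonical map is generically finite. Hence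
`V' ⇢ V (i + 1)` is birational, and the map factors through `V i ⇢ V (i + 1)`. So `V 0 ⇢ X` factors
through `V k`. There are infinitely many morphisms from a pointed line to a uniruled variety with a given
general value, and a variety covered by rational or elliptic curves is not of general type.

The language of function fields is used: `K` and `L` are the function fields of `V 0` and `X`, and `x` is
the generic point of `X`, in homogeneous coordinates. The equivalence for uniruled varieties is as in
`PointedTowers`, `PointedLines` (starting files), which are about nondegenerate complete intersections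
in tori and in products of lines.
-/

set_option autoImplicit false
set_option linter.overlappingInstances false
set_option maxHeartbeats 4000000
set_option synthInstance.maxHeartbeats 400000

open FF Module Pool.Agent Pool.Agent.W602.GT Pool.Agent.W602.RG
open Pool.Agent.R882.LT (TraceNe)
open Pool.Agent.W619.PQ (IsUniruled)
open Pool.Agent.R882.HY (PseudoBounded)

namespace Pool.Agent.Results.MP_5b1cbc_ag.CoveringTowers

/-- **The functions in `H` separate `r` points.** `E` is the function field of a variety; the embeddings
`σ : E → Ω` are its generic points with coordinates in the field `Ω`. At most `r` different such points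
impose independent conditions on the functions `s ∈ H`: if `∑ c σ * σ s = 0` for all `s` then all the
coefficients `c σ` are zero. -/
def SeparatesPoints {E : Type} [Field E] [Algebra ℂ E] (H : Set E) (r : ℕ) : Prop :=
  ∀ (Ω : Type) [Field Ω] [Algebra ℂ Ω] [IsAlgClosed Ω] (A : Finset (E →ₐ[ℂ] Ω)), A.card ≤ r →
    ∀ c : (E →ₐ[ℂ] Ω) → Ω, (∀ s ∈ H, ∑ σ ∈ A, c σ * σ s = 0) → ∀ σ ∈ A, c σ = 0

/-- The variety `V` of dimension `n` with the function field `K` has many canonical forms relative to
the variety `Y` with the function field `E`: `E` is the compositum of the function fields `F l` of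
varieties `X l`, `(∏ s l) * ω j` is a canonical form, regular at all prime divisors, for all `s l` in a
set `H l` of functions on `X l` which separates `r` points, and for every field `E < M ≤ K` some `ω j`
has a nonzero trace to `M`. -/
def HasForms (n : ℕ) {K : Type} [Field K] [Algebra ℂ K] (E : IntermediateField ℂ K) (r : ℕ) : Prop :=
  ∃ (k : ℕ) (F : Fin k → IntermediateField ℂ K) (H : ∀ l, Set (F l)) (J : Type)
    (ω : J → (Fin n → Derivation ℂ K K) → K),
    E = ⨆ l, F l ∧ (∀ l, SeparatesPoints (H l) r) ∧ (∀ j, IsPluri 1 (ω j)) ∧
    (∀ j (s : ∀ l, F l), (∀ l, s l ∈ H l) → ∀ P, Divisorial n P →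
      RegAt P (fun D => (∏ l, (s l : K)) * ω j D)) ∧
    ∀ M : IntermediateField ℂ K, E < M → ∃ j, TraceNe (ω j) M

/-- `K` is the function field of the first variety of a tower of coverings, with separation of `r`
points, over a variety with the property `Base`. -/
inductive Tower (n : ℕ) (Base : ∀ (K : Type) [Field K] [Algebra ℂ K], Prop) :
    ∀ (K : Type) [Field K] [Algebra ℂ K], ℕ → Prop
  | base {K : Type} [Field K] [Algebra ℂ K] {r : ℕ} (h : Base K) : Tower n Base K r
  | cover {K : Type} [Field K] [Algebra ℂ K] {r : ℕ} (E : IntermediateField ℂ K)
      (fin : FiniteDimensional E K) (forms : HasForms n E r)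
      (below : Tower n Base E (r / finrank E K)) : Tower n Base K r

/-- The curve with the function field `F` over the algebraically closed field `Λ` is rational, i.e.
`F = Λ(t)`, or elliptic, i.e. it has a vector field `D` without zeros and poles: `D t` is a unit
for the uniformizers `t` at all points `w`. -/
def IsRationalOrElliptic (Λ F : Type) [Field Λ] [Field F] [Algebra Λ F] : Prop :=
  (∃ t : F, IntermediateField.adjoin Λ {t} = ⊤) ∨
    ∃ D : Derivation Λ F F, ∀ (w : Place Λ F) (t : F), w.ord t = 1 →
      D t ≠ 0 ∧ w.ord (D t) = 0

/-- The variety with the function field `L`, of dimension `m + 1`, is covered by an `m`-dimensional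
family of rational or elliptic curves: there are an algebraically closed field `Λ` of transcendence
degree `m` (the algebraic closure of the function field of the base of the family) and a curve over
`Λ` with function field `F` (the geometric generic curve of the family), which is rational or
elliptic, and an embedding of `L` into `F` (the dominant map from the total space to `X`). -/
def IsCoveredByRationalOrElliptic (L : Type) [Field L] [Algebra ℂ L] (m : ℕ) : Prop :=
  ∃ (Λ F : Type) (_ : Field Λ) (_ : Field F) (_ : Algebra ℂ Λ) (_ : Algebra ℂ F)
    (_ : Algebra Λ F) (_ : IsScalarTower ℂ Λ F) (_ : IsAlgClosed Λ) (_ : IsFF Λ F),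
    Algebra.trdeg ℂ Λ = m ∧ IsRationalOrElliptic Λ F ∧ Nonempty (L →ₐ[ℂ] F)

theorem glo_iff {Λ F : Type} [Field Λ] [Field F] [Algebra Λ F] [CharZero Λ] [IsAlgClosed Λ]
    [IsFF Λ F] : N145.SX.GLO Λ F ↔ IsRationalOrElliptic Λ F := by
  unfold IsRationalOrElliptic
  simp only [N145.SX.flat_iff]
  exact ⟨N145.SX.flat_of_glo, N145.SX.glo_of_flat⟩

theorem cover_iff (L : Type) [Field L] [Algebra ℂ L] (m : ℕ) :
    N145.SX.Cov1 L m ↔ IsCoveredByRationalOrElliptic L m := by
  constructor
  · rintro ⟨Λ, F, i1, i2, i3, i4, i5, i6, i7, i8, h1, h2, h3⟩
    have hch : CharZero Λ := charZero_of_injective_algebraMap (algebraMap ℂ Λ).injective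
    exact ⟨Λ, F, i1, i2, i3, i4, i5, i6, i7, i8, h1, glo_iff.1 h2, h3⟩
  · rintro ⟨Λ, F, i1, i2, i3, i4, i5, i6, i7, i8, h1, h2, h3⟩
    have hch : CharZero Λ := charZero_of_injective_algebraMap (algebraMap ℂ Λ).injective
    exact ⟨Λ, F, i1, i2, i3, i4, i5, i6, i7, i8, h1, glo_iff.2 h2, h3⟩

theorem Tower.ntower {n : ℕ} {Base : ∀ (K : Type) [Field K] [Algebra ℂ K], Prop}
    {K : Type} [i1 : Field K] [i2 : Algebra ℂ K] {r : ℕ} (h : Tower n Base K r) :
    L5helper25.NTower n Base K r := by
  induction h with
  | base h => exact .base h
  | cover E fin forms below ih => exact .cover E fin forms ih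

theorem descends_uniruled (n : ℕ) (K : Type) [Field K] [Algebra ℂ K] (L : Type) [Field L]
    [Algebra ℂ L] [Algebra L K] [IsScalarTower ℂ L K] [FiniteDimensional L K]
    (h : IsUniruled ℂ K n) : IsUniruled ℂ L n := by
  obtain ⟨M, i1, i2, h1, h2, ⟨φ⟩⟩ := h
  exact ⟨M, i1, i2, h1, h2, ⟨φ.comp (IsScalarTower.toAlgHom ℂ L K)⟩⟩

theorem descends_covered (m : ℕ) (K : Type) [Field K] [Algebra ℂ K] (L : Type) [Field L]
    [Algebra ℂ L] [Algebra L K] [IsScalarTower ℂ L K] [FiniteDimensional L K]
    (h : IsCoveredByRationalOrElliptic K m) : IsCoveredByRationalOrElliptic L m := by
  obtain ⟨Λ, F, i1, i2, i3, i4, i5, i6, i7, i8, h1, h2, ⟨φ⟩⟩ := h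
  exact ⟨Λ, F, i1, i2, i3, i4, i5, i6, i7, i8, h1, h2, ⟨φ.comp (IsScalarTower.toAlgHom ℂ L K)⟩⟩

/-- **General type and hyperbolicity for the images of towers of coverings.** Let `K` be the function
field of the first variety `V` of a tower of varieties of dimension `n` with separation of `2 d` points,
and let `V ⇢ X` be a dominant rational map of degree `d` to a projective variety `X` with function field
`L` and generic point `x`.
(1) If the last variety of the tower is uniruled, then `X` is of general type if and only if it is not
uniruled, and `X` is of general type if it is pseudo-geometrically hyperbolic, or if the degrees of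
the morphisms from each curve to `X` are bounded off a proper closed subset of `X`.
(2) If the last variety of the tower is covered by rational or elliptic curves, then `X` is of general
type if and only if it is not covered by rational or elliptic curves. -/
theorem result {n : ℕ} {K : Type} [Field K] [Algebra ℂ K] [Algebra.EssFiniteType ℂ K]
    (hK : Algebra.trdeg ℂ K = (n : ℕ)) (L : Type) [Field L] [Algebra ℂ L] [Algebra L K]
    [IsScalarTower ℂ L K] [FiniteDimensional L K] {N : ℕ} {x : Fin (N + 1) → L} (hx : x ≠ 0)
    (hgen : coords ℂ x = ⊤) :
    (Tower n (fun E _ _ => IsUniruled ℂ E n) K (2 * finrank L K) →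
      (GeneralType ℂ L n ↔ ¬ IsUniruled ℂ L n) ∧
      (PseudoGeomHyp ℂ x → GeneralType ℂ L n) ∧
      (PseudoBounded ℂ x → GeneralType ℂ L n)) ∧
    ∀ m : ℕ, n = m + 1 →
      Tower n (fun E _ _ => IsCoveredByRationalOrElliptic E m) K (2 * finrank L K) →
      (GeneralType ℂ L n ↔ ¬ IsCoveredByRationalOrElliptic L m) := by
  have hL : Algebra.trdeg ℂ L = (n : ℕ) := Pool.Agent.Y184.NT.trdeg_below (K := K) hK
  have hess : Algebra.EssFiniteType ℂ L := Pool.Agent.TH466.QG.ess_below (K := K)
  refine ⟨fun h => ?_, fun m hm h => ?_⟩
  · refine Pool.Agent.R882.HY.pointed_of_dichotomy hL ?_ hx hgen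
    by_cases hg : GeneralType ℂ L n
    · exact Or.inl hg
    · exact Or.inr ((L5helper25.ntower (descends_uniruled n) h.ntower hK L).2 rfl hg)
  · subst hm
    constructor
    · intro hg hc
      exact N145.SX.not_gt_of_cov1 hL ((cover_iff L m).2 hc) ((N145.SX.kodGe_iff hL).2 hg)
    · intro hc
      by_contra hg
      exact hc ((L5helper25.ntower (descends_covered m) h.ntower hK L).2 rfl hg)

end Pool.Agent.Results.MP_5b1cbc_ag.CoveringTowers
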