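import Pool.Agent.Results.MP_5b1cbc_ag.AlmostAllMonomials
import Pool.Agent.L5helper62.MC.Cri2

/-!
MP_5b1cbc_ag, Q1: general type and pseudo-geometric hyperbolicity for the irreducible components of the
projective varieties given by linear combinations of the powers `x_j ^ d` and of `s` further monomials
of degree `d`, for all tuples of monomials which satisfy an explicit condition on the minors of the
matrix of the exponents. The starting result `AlmostAllMonomials` gives the same conclusions for a
proportion of the tuples which tends to one; here the exceptional tuples are described, there are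
explicit examples (all sufficiently large multiples of one tuple of exponent vectors), and the
proportion of the exceptional tuples is `O (d ^ (δ - 1))` for all `δ > 0`.

`minor d a p q`, `Nonzero I p q`, `Apart I C d a` (`Pool/Agent/L5helper62/MC/Cri1.lean`): the
determinant of the first `n` coordinates of the differences of `n` pairs of exponent vectors (of the
monomials `a i` and the powers `x_j ^ d`); it does not vanish for all tuples of monomials, the `i`-th
one in the variables from `I i`; all the variables from `I i` occur in the `i`-th monomial and all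
these determinants which do not vanish for all tuples are greater than `C d ^ (n - 1)` in absolute
value; `Gaps C d a`: the determinants are zero or greater than `C d ^ (n - 1)` in absolute value.
`wd n s` (`Cri2.lean`): the number `n (s + n + 1) (s + n) (s + n - 1) / 2 + 1`.

From the starting repository: `TuplesIn I d` (`Pool/Agent/R869/SDefs.lean`), `withPowers`
(`WDensDefs.lean`), `Loose F J` (`USharpDefs.lean`), `GenCoeffs F T` (`WGen.lean`), `Equivalent F`,
`LooseCriterion F` (`Pool/Agent/Results/MP_5b1cbc_ag/AlmostAllMonomials.lean`), `SubVar`, `VarPts`,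
`GeneralType` (`Pool/Agent/W602/GT`), `PointedMaps` (`Pool/Agent/W602/RG/TB.lean`), `IsFF`, `Place`.
-/

set_option autoImplicit false

namespace Pool.Agent.Results.MP_5b1cbc_ag.DeterminantCriterion

open FF MvPolynomial Pool.Agent.W602.GT Pool.Agent.R869.Wd Pool.Agent.L5helper62.MC
open Pool.Agent.W602.RG (PointedMaps)
open Pool.Agent.Results.MP_5b1cbc_ag.AlmostAllMonomials (Equivalent LooseCriterion finite_of)

/-- Over all algebraically closed fields of characteristic zero: `Equivalent F` for all projective
varieties given by linear combinations `F e` of the monomials with the exponent vectors `a i` and of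
the `x_j ^ d`; `LooseCriterion F` for all hypersurfaces given by such a linear combination; if all sets
of `2 m + 2` variables are among the `I i`, `m ≥ 1`, and all `I i` have at least `m + 1` elements, then
all closed subvarieties `V` of positive dimension of the varieties given by `m` such linear
combinations, with any `m` coefficient vectors linearly independent, are of general type, and there
are finitely many morphisms from each pointed curve to `V` with a given value at the marked point. -/
def Criteria {n s : ℕ} (I : Fin s → Finset (Fin (n + 1))) (d : ℕ)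
    (a : Fin s → (Fin (n + 1) →₀ ℕ)) : Prop :=
  ∀ (k : Type) [Field k] [IsAlgClosed k] [CharZero k],
    (∀ (m : ℕ) (F : Fin m → MvPolynomial (Fin (n + 1)) k),
      (∀ e, (F e).support ⊆ withPowers d a) → Equivalent F) ∧
    (∀ F : MvPolynomial (Fin (n + 1)) k, F.support ⊆ withPowers d a → LooseCriterion F) ∧
    ∀ (m : ℕ) (F : Fin m → MvPolynomial (Fin (n + 1)) k), 1 ≤ m → (∀ i, m + 1 ≤ (I i).card) →
      (∀ A : Finset (Fin (n + 1)), A.card = 2 * m + 2 → ∃ i, I i = A) →
      (∀ e, (F e).support ⊆ withPowers d a) → GenCoeffs F (withPowers d a) →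
      ∀ (K : Type) [Field K] [Algebra k K] (w : ℕ) (y : Fin (n + 1) → K), 1 ≤ w →
        SubVar F K w y → GeneralType k K w ∧
        ∀ (L : Type) [Field L] [Algebra k L] [IsFF k L] (c : Place k L), ∀ x ∈ VarPts k y,
          (PointedMaps y c x).Finite

theorem criteria_of {n s : ℕ} {I : Fin s → Finset (Fin (n + 1))} {d : ℕ}
    {a : Fin s → (Fin (n + 1) →₀ ℕ)} (hty : TypI I d a) : Criteria I d a := by
  classical
  intro k _ _ _
  obtain ⟨s', N, hg⟩ := hty.good
  obtain ⟨A, hA⟩ := hg.unif
  refine ⟨fun m F hFT K _ _ w y hw hy hcomp =>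
      pgh_tfae (hg.sys hFT ∅) (hA k (Fin m) F hFT ∅) hw hy hcomp, fun F hF =>
      ⟨fun J => ?_, (hty.loose_general hF).symm, fun K _ _ w y hy L _ _ _ c x hx hJ => ?_⟩,
      fun m F hm hcard hall hFT hgc K _ _ w y hw hy => ?_⟩
  · rw [hty.critSub hF (U := ∅) (J := J) fun j hj => absurd hj (Set.notMem_empty j)]
    constructor
    · rintro ⟨K, i1, i2, w, y, hw, hy, hyJ, hgt⟩
      exact ⟨K, i1, i2, w, y, hw, subVar_iff.1 hy, hyJ, fun h3 => hgt ((general_iff y).2 h3)⟩
    · rintro ⟨K, i1, i2, w, y, hw, hy, hyJ, hgt⟩
      exact ⟨K, i1, i2, w, y, hw, subVar_iff.2 hy, hyJ, fun h3 => hgt ((general_iff y).1 h3)⟩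
  · refine finite_of (hg.sys (F := fun _ : Fin 1 => F) (fun _ => hF) ∅).form
      (hA k (Fin 1) (fun _ => F) (fun _ => hF) ∅) hy c hx fun L' _ _ f hf => ?_
    rintro ⟨b, i, i', hi, hi', hb, hw⟩
    refine hJ (Finset.univ.filter fun j => f j ≠ 0) (fun j hj => Finset.mem_filter.2
      ⟨Finset.mem_univ _, hf j hj⟩) (hty.loose_of_orbit hF (x := f) (b := b)
      (fun j => by simp) ⟨i, by simpa using hi, i', by simpa using hi', hb⟩ fun v => hw 0 v)
  · have hsp := spread_all hm hcard hall
    exact ⟨hty.all hFT hgc hsp K w y hw hy, fun L _ _ _ c x hx =>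
      finite_of (hg.sys hFT ∅).form (hA k (Fin m) F hFT ∅) hy c hx fun L' _ _ f _ =>
        hty.no_parts hFT hgc (J := Finset.univ.filter fun j => f j ≠ 0) (fun j => by simp) (hsp _)⟩

/-- Let `n, s ≥ 0`, `n ≠ 0`, and `N = n (s + n + 1) (s + n) (s + n - 1) / 2 + 1`.

(1) Let `a 1, …, a s` be any exponent vectors of monomials of degree `d ≥ 1` in `x_0, …, x_n` such that
the determinants `minor d a p q` are zero or greater than `n! N d ^ (n - 1)` in absolute value. Then
`Equivalent F` for all projective varieties over algebraically closed fields of characteristic zero given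
by linear combinations `F 1, …, F m` of these monomials and of the `x_j ^ d`.

Let `I 1, …, I s` be nonempty sets of variables.

(2) `Criteria I d a` for all `d ≥ 1` and all tuples `a` of exponent vectors of monomials of degree `d`, the
`i`-th one in the variables from `I i`, which satisfy `Apart I (n! N) d a`.

(3) `Criteria I (k d) (k a)` for all `d ≥ 1`, all such tuples which satisfy `Apart I 0 d a`, and all
`k ≥ N`.

(4) For all `C` and all `δ > 0` there is `M` such that, for all `d ≥ 1`, at most `M d ^ (δ - 1)` times
the number of all tuples of exponent vectors of degree `d` do not satisfy `Apart I C d a`. -/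
theorem result : ∀ n s : ℕ, 0 < n →
    (∀ (d : ℕ) (a : Fin s → (Fin (n + 1) →₀ ℕ)), 0 < d → (∀ i, ∑ j, a i j = d) →
      Gaps (n.factorial * wd n s) d a →
      ∀ (k : Type) [Field k] [IsAlgClosed k] [CharZero k] (m : ℕ)
        (F : Fin m → MvPolynomial (Fin (n + 1)) k), (∀ e, (F e).support ⊆ withPowers d a) →
        Equivalent F) ∧
    ∀ I : Fin s → Finset (Fin (n + 1)), (∀ i, (I i).Nonempty) →
      (∀ (d : ℕ) (a : Fin s → (Fin (n + 1) →₀ ℕ)), 0 < d → a ∈ TuplesIn I d →
        Apart I (n.factorial * wd n s) d a → Criteria I d a) ∧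
      (∀ (d : ℕ) (a : Fin s → (Fin (n + 1) →₀ ℕ)), 0 < d → a ∈ TuplesIn I d → Apart I 0 d a →
        ∀ k : ℕ, wd n s ≤ k → Criteria I (k * d) (fun i => k • a i)) ∧
      ∀ (C : ℕ) (δ : ℝ), 0 < δ → ∃ M : ℝ, ∀ d : ℕ, 0 < d →
        ({a | a ∈ TuplesIn I d ∧ ¬ Apart I C d a}.ncard : ℝ) ≤
          M * (d : ℝ) ^ (δ - 1) * (TuplesIn I d).ncard := by
  intro n s hn
  refine ⟨fun d a hd ha hg k _ _ _ m F hFT K _ _ w y hw hy hcomp => ?_, fun I hI =>
    ⟨fun _ _ hd ha hap => criteria_of (apart_typI hI hn hd ha hap),
    fun _ _ hd ha hap _ hk => criteria_of (smul_typI hI hk hd ha hap),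
    fun C _ hδ => few_not_apart I hI hn C hδ⟩⟩
  obtain ⟨s', N, hg⟩ := gaps_good hn hd ha hg
  obtain ⟨A, hA⟩ := hg.unif
  exact pgh_tfae (hg.sys hFT ∅) (hA k (Fin m) F hFT ∅) hw hy hcomp

end Pool.Agent.Results.MP_5b1cbc_ag.DeterminantCriterion
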