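import Pool.Agent.L5helper25.FamM

/-!
# Images of families of curves: general type, or covered by rational or elliptic curves

Let `V ⇢ B` be a family of curves (with connected fibres, of any genus, with any moduli), `dim B = m`. We
assume that `V` has many canonical forms: there are rational canonical forms `ω j` of `V`, whose
restrictions to the geometric generic fibre (a curve over the algebraic closure `Λ` of `ℂ(B)`) generate
the space of its regular differentials, and the `s * ω j` are regular canonical forms on the smooth
projective models of `V` for all `s` in a set `H` of rational functions on `B`, and `H` separates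
sufficiently many general points of `B`. For example this is true if the canonical bundle of `B` is
sufficiently positive, since the direct image of the relative dualizing sheaf becomes globally generated
at the generic point after a twist; but `B` can also be rational, for instance if `V` is a complete
intersection, or a covering of `B × ℙ¹`, of sufficiently large degrees.

Let `V ⇢ W` be any dominant rational map of finite degree to a variety `W`. It need not be related to the
fibration, it need not be the quotient by a group, and the fibres can be mapped to `W` with any degree.
Suppose that `H` separates `2 [ℂ(V') : ℂ(W)]` points, where `V'` is the image of `V` in `W × B`. Then the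
following are equivalent:

1. `W` is of general type;
2. the canonical map of `W`, given by `H⁰(K_W)`, is generically finite;
3. `W` is not covered by rational or elliptic curves.

Rational and elliptic curves have infinitely many maps to themselves which fix a given point. So if
`W` is covered by such curves then it is not pseudo-geometrically hyperbolic (this remark is not part
of the Lean proof). Hence a pseudo-geometrically hyperbolic variety `W` in this class is of general
type, as predicted by Lang's conjecture, and then already the canonical map is generically finite;
if `W` is not of general type then it is not hyperbolic for a simple reason.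

If `B` is the product of the varieties `X i` (or generically finite over it), `i < k`, then it is
sufficient that `H` is the set of the products `∏ s i`, `s i ∈ H i`, and that the set `H i` of functions
on `X i` separates `2 d i` points, `d i` being the degree over `W_i` of the image of `V` in `W_i × X i`,
where `W_i` is the image of `V` in `W × X 0 × ... × X (i - 1)`. This is the version which is stated here;
the function field `E` of `B` is the compositum of the function fields `F i` of the `X i`, and it is
algebraically closed in the one of `V`.

The theorem `ProductWithCurveLang` (starting file) is the case of a product `V = X × C` with a curve; here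
the curves may vary in moduli, and `B` need not have canonical forms.

Proof. The traces of the `(∏ s i) * ω j` are canonical forms on `W`. If all of them vanish, or if two
generic points of `W` have the same image under the map given by the traces, then this is a relation
between the points of `V` over one point, or over the two points, multilinear in the values of the
`s i`. At most `2 d i` points of `X i` occur if the first `i` coordinates are fixed, and they are
separated, so we can fix all the coordinates. If the traces of all `ω j` on `V'` are zero then this
holds for all regular differentials of the geometric generic fibre of `V`, and the one of `V'` is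
rational. Otherwise the two points are images of points of `V` over the same point of `B`, and the values
of the traces of the `ω j` on `V'` at the two points are proportional, with a factor which does not
depend on `j`. So if a ratio of these traces is not constant on the fibres of `V' ⇢ B` then the canonical
map of `W` is generically finite. If all these ratios are constant on the fibres, then the traces of all
regular differentials of the geometric generic fibre of `V` on the one of `V'` are multiples of one
differential, so all regular differentials of the latter curve are proportional, and it is rational or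
elliptic. Conversely, the pluricanonical forms of a variety which is covered by rational or elliptic
curves do not separate the points of these curves.
-/

set_option autoImplicit false
set_option linter.overlappingInstances false
set_option maxHeartbeats 4000000
set_option synthInstance.maxHeartbeats 400000

open FF Module Pool.Agent Pool.Agent.W602.GT

namespace Pool.Agent.Results.MP_5b1cbc_ag.FamiliesOfCurves

/-- **The functions in `H` separate `r` points.** `E` is the function field of a variety; the embeddings
`σ : E → Ω` are its generic points with coordinates in the field `Ω`. At most `r` different such points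
impose independent conditions on the functions `s ∈ H`: if `∑ c σ * σ s = 0` for all `s` then all the
coefficients `c σ` are zero. -/
def SeparatesPoints {E : Type} [Field E] [Algebra ℂ E] (H : Set E) (r : ℕ) : Prop :=
  ∀ (Ω : Type) [Field Ω] [Algebra ℂ Ω] [IsAlgClosed Ω] (A : Finset (E →ₐ[ℂ] Ω)), A.card ≤ r →
    ∀ c : (E →ₐ[ℂ] Ω) → Ω, (∀ s ∈ H, ∑ σ ∈ A, c σ * σ s = 0) → ∀ σ ∈ A, c σ = 0

/-- **Regular differentials of a curve.** `Z` is the function field of a curve over the field `Λ`, and
`δ` a rational vector field, not zero. The rational differential `η` with `η(δ) = f` is `(f / δ s) ds`,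
for any local parameter `s`. It has no poles. -/
def RegularDifferential {Λ Z : Type} [Field Λ] [Field Z] [Algebra Λ Z] (δ : Derivation Λ Z Z)
    (f : Z) : Prop :=
  ∀ (w : Place Λ Z) (s : Z), w.ord s = 1 → w.Reg (f / δ s)

/-- The canonical map of the varieties with function field `L`, of dimension `w`, is generically
finite: there are canonical forms, regular at all prime divisors, whose ratios contain `w`
algebraically independent functions. (For pluricanonical forms this is `GeneralType`.) -/
def CanonicalMapGenericallyFinite (L : Type) [Field L] [Algebra ℂ L] (w : ℕ) : Prop :=
  ∃ ω : Fin (w + 1) → (Fin w → Derivation ℂ L L) → L,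
    (∀ j, IsPluri 1 (ω j) ∧ ∀ P : Place ℂ L, Divisorial w P → RegAt P (ω j)) ∧
    ∃ D, ω 0 D ≠ 0 ∧ AlgebraicIndependent ℂ (fun i : Fin w => ω i.succ D / ω 0 D)

/-- The curve with the function field `F` over the algebraically closed field `Λ` is rational, i.e.
`F = Λ(t)`, or elliptic, i.e. it has a vector field `D` without zeros and poles: `D t` is a unit
for the uniformizers `t` at all points `w`. -/
def IsRationalOrElliptic (Λ F : Type) [Field Λ] [Field F] [Algebra Λ F] : Prop :=
  (∃ t : F, IntermediateField.adjoin Λ {t} = ⊤) ∨
    ∃ D : Derivation Λ F F, ∀ (w : Place Λ F) (t : F), w.ord t = 1 →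
      D t ≠ 0 ∧ w.ord (D t) = 0

/-- The variety with the function field `L`, of dimension `m + 1`, is covered by an `m`-dimensional
family of rational or elliptic curves: there are an algebraically closed field `Λ` of transcendence
degree `m` (the algebraic closure of the function field of the base of the family) and a curve over
`Λ` with function field `F` (the geometric generic curve of the family), which is rational or
elliptic, and an embedding of `L` into `F` (the dominant map from the total space to `W`). -/
def IsCoveredByRationalOrElliptic (L : Type) [Field L] [Algebra ℂ L] (m : ℕ) : Prop :=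
  ∃ (Λ F : Type) (_ : Field Λ) (_ : Field F) (_ : Algebra ℂ Λ) (_ : Algebra ℂ F)
    (_ : Algebra Λ F) (_ : IsScalarTower ℂ Λ F) (_ : IsAlgClosed Λ) (_ : IsFF Λ F),
    Algebra.trdeg ℂ Λ = m ∧ IsRationalOrElliptic Λ F ∧ Nonempty (L →ₐ[ℂ] F)

theorem glo_iff {Λ F : Type} [Field Λ] [Field F] [Algebra Λ F] [CharZero Λ] [IsAlgClosed Λ]
    [IsFF Λ F] : N145.SX.GLO Λ F ↔ IsRationalOrElliptic Λ F := by
  unfold IsRationalOrElliptic
  simp only [N145.SX.flat_iff]
  exact ⟨N145.SX.flat_of_glo, N145.SX.glo_of_flat⟩

theorem cover_iff (L : Type) [Field L] [Algebra ℂ L] (m : ℕ) :
    N145.SX.Cov1 L m ↔ IsCoveredByRationalOrElliptic L m := by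
  constructor
  · rintro ⟨Λ, F, i1, i2, i3, i4, i5, i6, i7, i8, h1, h2, h3⟩
    have hch : CharZero Λ := charZero_of_injective_algebraMap (algebraMap ℂ Λ).injective
    exact ⟨Λ, F, i1, i2, i3, i4, i5, i6, i7, i8, h1, glo_iff.1 h2, h3⟩
  · rintro ⟨Λ, F, i1, i2, i3, i4, i5, i6, i7, i8, h1, h2, h3⟩
    have hch : CharZero Λ := charZero_of_injective_algebraMap (algebraMap ℂ Λ).injective
    exact ⟨Λ, F, i1, i2, i3, i4, i5, i6, i7, i8, h1, glo_iff.2 h2, h3⟩

variable {K : Type} [Field K] [Algebra ℂ K] {k : ℕ}

/-- The function field of the image `W_i` of `V` in the product of `W` and the first `i` factors.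
Here `K` and `L` are the function fields of `V` and `W`, and `F l` is the one of the `l`-th
factor. -/
noncomputable def Img (F : Fin k → IntermediateField ℂ K) (L : Type) [Field L] [Algebra L K]
    (i : ℕ) : IntermediateField L K :=
  IntermediateField.adjoin L {z | ∃ l : Fin k, l.val < i ∧ z ∈ F l}

/-- The degree over `W_i` of the image of `V` in the product of `W_i` and the `i`-th factor. -/
noncomputable def deg (F : Fin k → IntermediateField ℂ K) (L : Type) [Field L] [Algebra L K]
    (i : Fin k) : ℕ :=
  finrank (Img F L i) (IntermediateField.adjoin (Img F L i) (F i : Set K))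

theorem img_eq (F : Fin k → IntermediateField ℂ K) (L : Type) [Field L] [Algebra ℂ L]
    [Algebra L K] [IsScalarTower ℂ L K] [FiniteDimensional L K] (i : ℕ) :
    N145.PC.MF F L (N145.PC.Js k i) = Img F L i := by
  unfold N145.PC.MF N145.PC.MJ Img
  congr 1
  ext z
  simp only [Set.mem_iUnion, N145.PC.mem_Js, Set.mem_range, exists_prop]
  constructor
  · rintro ⟨l, hl, z, rfl⟩
    exact ⟨l, hl, z.2⟩
  · rintro ⟨l, hl, hz⟩
    exact ⟨l, hl, ⟨z, hz⟩, rfl⟩

/-- **General type, or covered by rational or elliptic curves.** Let `K` be the function field of `V` and
`E ⊆ K` the one of `B`, the compositum of the function fields `F i` of varieties `X i`, `i < k`; `E` is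
algebraically closed in `K`, the dimension of `B` is `m` and the one of `V` is `m + 1`. Let `ω j` be
rational canonical forms on `V`, and `H i` sets of rational functions on `X i` such that
`(∏ s i) * ω j` is a canonical form, regular at all prime divisors of the models of `V`, for all
`s i ∈ H i` and all `j`. Let `Λ` be an algebraic closure of `E` and `Z` the function field of the geometric
generic fibre, a curve over `Λ` (the compositum of `K` and `Λ`). Let `D` be a rational frame of the tangent
bundle of `V` which is adapted to the fibration: it preserves `E`, and the last vector field is tangent to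
the fibres; let `δ` be the vector field on the geometric generic fibre defined by the last one. The
`ω j` generate the regular differentials of the geometric generic fibre: the restriction of `ω j` to the
fibre, evaluated at `δ`, is `ω j D`, up to a factor in `E` which does not depend on `j`.
Let `L ⊆ K` be the function field of a variety `W` such that the extension is finite. If for all `i < k`
the set `H i` separates `2 d i` points, where `d i` is the degree over `W_i` of the image of `V` in the
product of `W_i` and `X i`, then the following are equivalent: `W` is of general type; the canonical map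
of `W` is generically finite; `W` is not covered by rational or elliptic curves. -/
theorem result [Algebra.EssFiniteType ℂ K]
    (F : Fin k → IntermediateField ℂ K)
    (E : IntermediateField ℂ K) (hE : E = ⨆ i, F i) (hcl : ∀ z : K, IsAlgebraic E z → z ∈ E)
    (m : ℕ) (hB : Algebra.trdeg ℂ E = m) (hK : Algebra.trdeg ℂ K = (m + 1 : ℕ))
    (H : ∀ i, Set (F i)) (J : Type)
    (ω : J → (Fin (m + 1) → Derivation ℂ K K) → K) (hω : ∀ j, IsPluri 1 (ω j))
    (hωH : ∀ (j : J) (s : ∀ i, F i), (∀ i, s i ∈ H i) → ∀ P, Divisorial (m + 1) P →
      RegAt P (fun D => (∏ i, (s i : K)) * ω j D))
    (Λ Z : Type) [Field Λ] [Field Z] [Algebra E Λ] [Algebra Λ Z] [Algebra K Z]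
    [IsScalarTower E Λ Z] [Algebra ℂ Λ] [Algebra ℂ Z] [IsScalarTower ℂ Λ Z] [IsScalarTower ℂ K Z]
    [IsScalarTower ℂ E Λ] [Algebra.IsAlgebraic E Λ] [IsAlgClosed Λ]
    (hZ : IntermediateField.adjoin Λ (Set.range (algebraMap K Z)) = ⊤)
    (D : Fin (m + 1) → Derivation ℂ K K) (hD : LinearIndependent K D)
    (hDE : ∀ i, ∀ z ∈ E, D i z ∈ E) (hDl : ∀ z ∈ E, D (Fin.last m) z = 0)
    (δ : Derivation Λ Z Z) (hδ : ∀ z : K, δ (algebraMap K Z z) = algebraMap K Z (D (Fin.last m) z))
    (hgen : ∀ f : Z, RegularDifferential δ f →
      f ∈ Submodule.span Λ (Set.range fun j => algebraMap K Z (ω j D)))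
    (L : Type) [Field L] [Algebra ℂ L] [Algebra L K] [IsScalarTower ℂ L K] [FiniteDimensional L K]
    (hH : ∀ i, SeparatesPoints (H i) (2 * deg F L i)) :
    [GeneralType ℂ L (m + 1), CanonicalMapGenericallyFinite L (m + 1),
      ¬ IsCoveredByRationalOrElliptic L m].TFAE := by
  have hL : Algebra.trdeg ℂ L = (m + 1 : ℕ) := Pool.Agent.Y184.NT.trdeg_below (K := K) hK
  have hessL : Algebra.EssFiniteType ℂ L := Pool.Agent.TH466.QG.ess_below (K := K)
  have hLK : Algebra.trdeg E K = (1 : ℕ) := Y174.trdeg_LK (r := 1) hB hK
  have hΛ0 : CharZero Λ := charZero_of_injective_algebraMap (algebraMap ℂ Λ).injective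
  have htrF : Algebra.trdeg Λ Z = (1 : ℕ) := Y174.trdeg_F (L := E) (K := K) hLK hZ
  have hessF : Algebra.EssFiniteType Λ Z := Y174.ess_F (k := ℂ) (K := K) inferInstance hZ
  have hFF : IsFF Λ Z := ⟨hessF, by rw [htrF]; simp⟩
  have hδ0 : δ ≠ 0 := by
    intro h
    refine hD.ne_zero (Fin.last m) ?_
    ext z
    have h3 := hδ z
    rw [h] at h3
    exact (_root_.map_eq_zero (algebraMap K Z)).1 h3.symm
  have hspan : ∀ f ∈ N145.PL.HL δ (∅ : Set (Place Λ Z)),
      f ∈ Submodule.span Λ (Set.range fun j => algebraMap K Z (ω j D)) := by
    intro f hf
    refine hgen f fun w s hs => ?_
    have h3 := W603.LV.der_pi_ne_zero hδ0 w hs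
    have h4 := W603.LV.vo_eq w hs hδ0
    rcases hf w with h5 | h5
    · rw [h5, zero_div]
      exact w.reg_zero
    by_cases hf0 : f = 0
    · rw [hf0, zero_div]
      exact w.reg_zero
    have h6 : w.ord (f / δ s) = w.ord f - W603.LV.vo w δ := by
      rw [w.ord_div hf0 h3, h4]
    have h7 : f / δ s ≠ 0 := div_ne_zero hf0 h3
    refine (w.reg_iff h7).2 ?_
    rw [h6]
    rw [N273.SX.bd_empty] at h5
    linarith
  tfae_have 2 → 1 := by
    rintro ⟨η, h1, D', h2, h3⟩
    exact ⟨hL, 1, one_pos, η, fun j => (h1 j).1, fun P hP j => (h1 j).2 P hP, D', h2, h3⟩
  tfae_have 1 → 3 := by
    intro hg hc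
    exact N145.SX.not_gt_of_cov1 hL ((cover_iff L m).2 hc) ((N145.SX.kodGe_iff hL).2 hg)
  tfae_have 3 → 2 := by
    intro hc
    rcases L5helper25.fam_lang (F := F) (E := E) (Λ := Λ) (Z := Z) (L := L) (H := H) hK hE hB hcl
      (g := fun i => 2 * deg F L i + 1) (fun Ω _ _ _ i A hA c hc => hH i Ω A (by omega) c hc)
      (fun i => by
        rw [img_eq]
        exact Nat.lt_succ_self _) hω hωH hZ hD hDE hDl hδ hspan with h | h
    · exact h
    · exact absurd ((cover_iff L m).1 h) hc
  tfae_finish

end Pool.Agent.Results.MP_5b1cbc_ag.FamiliesOfCurves
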