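import Pool.Agent.N254.SQ.Num
import Pool.Agent.L5helper62.SK.Dim

/-!
# General type and pseudo-geometric hyperbolicity: smooth hypersurfaces suffice

Let `k` be any algebraically closed field of characteristic zero, `X = V(S)` any closed subset of `P^n`
over `k`, `n ≥ 1` (any dimension and any singularities), given by forms of degree at most `d`, `d ≥ 3`,
and `v : P^n → P^N` the Veronese embedding of degree `d`. For all `D ≥ D₁(N)` there are quadratic
forms `Q_t`, `t < N (2 N + 1)`, such that the hypersurface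

`Y : ∑ t, Q_t(y) (y_0 + t y_1 + ⋯ + t^N y_N)^D = 0`

is smooth, contains `v(X)`, for every point `z` of `Y` outside of `v(X)` and every pointed curve `(C, c)`
there are only finitely many morphisms from `C` to `Y` mapping `c` to `z`, and every closed subvariety
of `Y` of positive dimension is contained in `v(X)` or both of general type and
pseudo-geometrically hyperbolic. So Q1 holds for all closed subvarieties of `Y` if and only if it
holds for all closed subvarieties of `X`, and the Zariski closures `N(Y)` of the union of the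
closed subvarieties of positive dimension which are not pseudo-geometrically hyperbolic, and `Sp(Y)`
of the union of those which are not of general type, are `v(N(X))` and `v(Sp(X))`.

Consequently, for each of the two implications of Q1 and for each dimension `w ≥ 1`, its validity for
all projective varieties of dimension `w` over `k` is equivalent to a statement on the smooth
hypersurfaces `Y` of this form, with `D` in any given infinite set:

* general type implies pseudo-geometrically hyperbolic in dimension `w` if and only if, for all `Y`,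
  no irreducible component of dimension `w` of `N(Y)` is of general type;
* pseudo-geometrically hyperbolic implies general type in dimension `w` if and only if, for all `Y`,
  all closed subvarieties of `Y` of dimension `w` which are not of general type are in `N(Y)`;
* pseudo-geometrically hyperbolic implies general type in all dimensions `≤ w` if and only if, for
  all `Y`, no irreducible component of `Sp(Y)` of dimension between `1` and `w` is
  pseudo-geometrically hyperbolic.
-/

set_option autoImplicit false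

namespace Pool.Agent.Results.MP_5b1cbc_ag.SmoothHypersurfacesSuffice

open MvPolynomial FF
open Pool.Agent.W602.GT (GeneralType IsForm)
open Pool.Agent.W602.RG (PseudoGeomHyp)
open Pool.Agent.N254.SQ (Monomials veronese)
open Pool.Agent.L5helper62.SK (SubVarOf OnSpecial OnNonHyp LangFor Maps Component SmoothForm
  powerForm)

/-- the irreducible closed subsets of dimension `w` of projective spaces over `k` which are of general
type are pseudo-geometrically hyperbolic -/
def GeneralImpliesHyp (k : Type) [Field k] (w : ℕ) : Prop :=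
  ∀ (n : ℕ) (L : Type) [Field L] [Algebra k L] (y : Fin (n + 1) → L),
    SubVarOf (∅ : Set (MvPolynomial (Fin (n + 1)) k)) L w y → GeneralType k L w →
      PseudoGeomHyp k y

/-- the irreducible closed subsets of dimension `w` of projective spaces over `k` which are
pseudo-geometrically hyperbolic are of general type -/
def HypImpliesGeneral (k : Type) [Field k] (w : ℕ) : Prop :=
  ∀ (n : ℕ) (L : Type) [Field L] [Algebra k L] (y : Fin (n + 1) → L),
    SubVarOf (∅ : Set (MvPolynomial (Fin (n + 1)) k)) L w y → PseudoGeomHyp k y →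
      GeneralType k L w

/-- the statement `W` for all smooth hypersurfaces `∑ t, Q_t(y) (y_0 + t y_1 + ⋯ + t^N y_N)^D = 0`
with quadratic forms `Q_t`, `t < N (2 N + 1)`, and `D` in `E`, `D ≥ D₁(N)` -/
def ForAllY (D₁ : ℕ → ℕ) (E : Set ℕ) (k : Type) [Field k]
    (W : ∀ N : ℕ, MvPolynomial (Fin (N + 1)) k → Prop) : Prop :=
  ∀ (N D : ℕ) (Q : Fin (N * (2 * N + 1)) → MvPolynomial (Fin (N + 1)) k), D ∈ E → D₁ N ≤ D →
    (∀ t, (Q t).IsHomogeneous 2) → SmoothForm (powerForm D Q) → W N (powerForm D Q)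

/-- no irreducible component of dimension `w` of the Zariski closure of the union of the closed
subvarieties of `A = 0` of positive dimension which are not pseudo-geometrically hyperbolic is of
general type -/
def NoGeneralComponent {k : Type} [Field k] (w : ℕ) {N : ℕ}
    (A : MvPolynomial (Fin (N + 1)) k) : Prop :=
  ∀ (L : Type) [Field L] [Algebra k L] (y : Fin (N + 1) → L), SubVarOf {A} L w y →
    GeneralType k L w → ¬ Component (OnNonHyp {A}) y

/-- all closed subvarieties of `A = 0` of dimension `w` which are not of general type are contained in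
the Zariski closure of the union of the closed subvarieties of positive dimension which are not
pseudo-geometrically hyperbolic -/
def SpecialInNonHyp {k : Type} [Field k] (w : ℕ) {N : ℕ}
    (A : MvPolynomial (Fin (N + 1)) k) : Prop :=
  ∀ (L : Type) [Field L] [Algebra k L] (y : Fin (N + 1) → L), SubVarOf {A} L w y →
    ¬ GeneralType k L w → ∀ G, IsForm G → OnNonHyp {A} G → aeval y G = 0

/-- no irreducible component of dimension `w` of the Zariski closure of the union of the closed
subvarieties of `A = 0` of positive dimension which are not of general type is pseudo-geometrically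
hyperbolic -/
def NoHypComponent {k : Type} [Field k] (w : ℕ) {N : ℕ}
    (A : MvPolynomial (Fin (N + 1)) k) : Prop :=
  ∀ (L : Type) [Field L] [Algebra k L] (y : Fin (N + 1) → L), SubVarOf {A} L w y →
    PseudoGeomHyp k y → ¬ Component (OnSpecial {A}) y

section proof

open Pool.Agent.N254.SQ (Mon ver t_num reduce)
open Pool.Agent.W602.GT (val coords)
open Pool.Agent.L5helper62.SK (GeoK GoodK pull aeval_pull pull_hom Eqs nonHyp_restr special_restr
  sub_mono sub_ver hyp_iff t_versurj hyp_ver_one dim_mono)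

variable {k : Type} [Field k] [IsAlgClosed k] [CharZero k]

/-- there are no varieties of positive dimension in `P^0` -/
theorem pos_dim {n : ℕ} {L : Type} [Field L] [Algebra k L] {w : ℕ} {y : Fin (n + 1) → L}
    (hw : 1 ≤ w) (hy : SubVarOf (∅ : Set (MvPolynomial (Fin (n + 1)) k)) L w y) : 1 ≤ n := by
  rcases Nat.eq_zero_or_pos n with hn | hn
  · exfalso
    subst hn
    have h0 : y 0 ≠ 0 := by
      intro h
      apply hy.ne
      funext j
      rw [show j = 0 from Fin.ext (by omega)]
      exact h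
    have h1 : coords k y = ⊥ := by
      rw [eq_bot_iff]
      apply IntermediateField.adjoin_le_iff.2
      rintro _ ⟨i, j, hj, rfl⟩
      rw [show i = 0 from Fin.ext (by omega), show j = 0 from Fin.ext (by omega), div_self h0]
      exact one_mem _
    have h2 : (⊥ : IntermediateField k L) = ⊤ := by rw [← h1, hy.gen]
    have h3 : Algebra.IsAlgebraic k L := by
      refine ⟨fun z => ?_⟩
      have h4 : z ∈ (⊥ : IntermediateField k L) := by
        rw [h2]
        exact IntermediateField.mem_top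
      obtain ⟨c, rfl⟩ := IntermediateField.mem_bot.1 h4
      exact isAlgebraic_algebraMap c
    have h5 := hy.dim
    rw [trdeg_eq_zero_iff.2 h3] at h5
    have h6 : w = 0 := by exact_mod_cast h5.symm
    omega
  · exact hn

/-- finitely many equations with the same zeros -/
theorem same {n : ℕ} (S : Set (MvPolynomial (Fin (n + 1)) k)) (hS : ∀ p ∈ S, IsForm p) :
    ∃ (T : Set (MvPolynomial (Fin (n + 1)) k)) (d : ℕ),
      (∀ (Ω : Type) [Field Ω] [Algebra k Ω] (x : Fin (n + 1) → Ω),
        (∀ p ∈ T, aeval x p = 0) ↔ ∀ p ∈ S, aeval x p = 0) ∧ 3 ≤ d ∧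
      ∀ p ∈ T, ∃ e ≤ d, p.IsHomogeneous e := by
  obtain ⟨T, hT, hTS⟩ := reduce S
  have hT2 : ∀ p ∈ T, ∃ e, p.IsHomogeneous e := fun p hp => hS p (hT hp)
  obtain ⟨d, hd3, hd⟩ : ∃ d, 3 ≤ d ∧ ∀ p ∈ T, ∃ e ≤ d, p.IsHomogeneous e := by
    choose! e he using hT2
    refine ⟨max 3 (T.sup e), le_max_left _ _, fun p hp => ⟨e p, ?_, he p hp⟩⟩
    exact le_trans (Finset.le_sup (f := e) hp) (le_max_right _ _)
  refine ⟨T, d, ?_, hd3, fun p hp => hd p hp⟩
  intro Ω _ _ x
  refine ⟨fun hx p hp => ?_, fun hx p hp => hx p (hT hp)⟩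
  have h1 := hTS Ω (algebraMap k Ω) x (fun p hp => by
    rw [eval_map]
    exact hx p hp) p hp
  rw [eval_map] at h1
  exact h1

/-- the hypersurface through a given variety -/
theorem through {D₁ : ℕ → ℕ} (H : GeoK D₁) {E : Set ℕ} (hE : E.Infinite) {n : ℕ}
    {L : Type} [Field L] [Algebra k L] {w : ℕ} {y : Fin (n + 1) → L} (hw : 1 ≤ w)
    (hy : SubVarOf (∅ : Set (MvPolynomial (Fin (n + 1)) k)) L w y) :
    ∃ (S : Set (MvPolynomial (Fin (n + 1)) k)) (N d D : ℕ) (m : Fin (N + 1) → Fin (n + 1) → ℕ)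
      (Q : Fin (N * (2 * N + 1)) → MvPolynomial (Fin (N + 1)) k),
      (∀ (Ω : Type) [Field Ω] [Algebra k Ω] (x : Fin (n + 1) → Ω),
        (∀ p ∈ S, aeval x p = 0) ↔ ∀ p ∈ Eqs k y, aeval x p = 0) ∧ D ∈ E ∧ D₁ N ≤ D ∧
      (∀ t, (Q t).IsHomogeneous 2) ∧ SmoothForm (powerForm D Q) ∧
      GoodK n N d m S (powerForm D Q) := by
  obtain ⟨S, d, hSame, hd3, hd⟩ := same (Eqs k y) (fun p hp => hp.1)
  obtain ⟨N, m, hm, hN⟩ := t_num n d (pos_dim hw hy) hd3
  obtain ⟨D, hD, hD2⟩ := hE.exists_gt (D₁ N)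
  obtain ⟨Q, hQ, hsm, hg⟩ := H n d (pos_dim hw hy) hd3 N m hm hN D hD2.le k S hd
  exact ⟨S, N, d, D, m, Q, hSame, hD, hD2.le, hQ, hsm, hg⟩

/-- an irreducible variety which is contained in a closed set given by forms vanishing on it, and which
contains it, is a component -/
theorem whole {N : ℕ} {I : MvPolynomial (Fin (N + 1)) k → Prop} {L : Type} [Field L] [Algebra k L]
    {y : Fin (N + 1) → L} (h1 : ∀ G, IsForm G → I G → val y G = 0)
    (h2 : ∀ G, IsForm G → val y G = 0 → I G) : Component I y := by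
  refine ⟨h1, 1, ⟨0, isHomogeneous_one _ _⟩, ?_, fun G hG hGy => ?_⟩
  · change aeval y (1 : MvPolynomial (Fin (N + 1)) k) ≠ 0
    rw [map_one]
    exact one_ne_zero
  · rw [mul_one]
    exact h2 G hG hGy

theorem comp_false {N : ℕ} {I : MvPolynomial (Fin (N + 1)) k → Prop} {L : Type} [Field L]
    [Algebra k L] {y : Fin (N + 1) → L} (hc : Component I y) {G : MvPolynomial (Fin (N + 1)) k}
    (hG : IsForm G) (hGy : val y G ≠ 0)
    (h : ∀ H, IsForm H → (∀ F, IsForm F → val y F = 0 → I (F * H)) → I (G * H)) : False := by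
  obtain ⟨hc1, H, hH, hyH, hc2⟩ := hc
  obtain ⟨a, ha⟩ := id hG
  obtain ⟨b, hb⟩ := id hH
  have h2 : aeval y (G * H) = 0 := hc1 (G * H) ⟨a + b, ha.mul hb⟩ (h H hH hc2)
  rw [map_mul] at h2
  exact mul_ne_zero hGy hyH h2

theorem gen_of {N : ℕ} {S : Set (MvPolynomial (Fin (N + 1)) k)} {L : Type} [Field L] [Algebra k L]
    {w : ℕ} {y : Fin (N + 1) → L} (hy : SubVarOf S L w y) :
    SubVarOf (∅ : Set (MvPolynomial (Fin (N + 1)) k)) L w y :=
  ⟨hy.ne, fun p => absurd p.2 (Set.notMem_empty _), hy.gen, hy.dim⟩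

theorem general_iff {D₁ : ℕ → ℕ} (H : GeoK D₁) {E : Set ℕ} (hE : E.Infinite) {w : ℕ}
    (hw : 1 ≤ w) :
    GeneralImpliesHyp k w ↔ ForAllY D₁ E k fun _ A => NoGeneralComponent w A := by
  constructor
  · intro h N D Q _ _ _ _ L _ _ y hy hgt hcomp
    obtain ⟨G, hG1, hG2, hG3⟩ := (hyp_iff hw (gen_of hy)).1 (h N L y (gen_of hy) hgt)
    exact comp_false hcomp hG1 hG2 fun H' _ h2 => nonHyp_restr _ L y G H' h2 hG3
  · intro hNC n L _ _ y hy hgt
    obtain ⟨S, N, d, D, m, Q, hSame, hD, hD1, hQ, hsm, hg⟩ := through H hE hw hy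
    have hyS : SubVarOf S L w y :=
      ⟨hy.ne, fun p => (hSame L y).2 (fun q hq => hq.2) p p.2, hy.gen, hy.dim⟩
    by_contra hph
    refine hNC N D Q hD hD1 hQ hsm L (ver m y) (sub_ver hg hyS) hgt (whole ?_ ?_)
    · intro G hG hI
      rcases hI L w (ver m y) hw (sub_ver hg hyS) with h1 | h1
      · exact absurd ((hyp_ver_one hg.mon hg.deg).1 h1) hph
      · exact h1
    · intro G hG hGy L' _ _ w' y' hw' hy'
      rcases Pool.Agent.L5helper62.SK.good_hyp hg hw' hy' with h1 | ⟨x, c, hx, hc, hxS, hyx⟩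
      · exact Or.inl h1.2
      · right
        change aeval y' G = 0
        rw [hyx, Pool.Agent.L5helper62.SK.aeval_zero_of hG hc, ← aeval_pull]
        obtain ⟨e, he⟩ := hG
        refine (hSame L' x).1 hxS (pull m G) ⟨⟨d * e, pull_hom hg.mon he⟩, ?_⟩
        change aeval y (pull m G) = 0
        rw [aeval_pull]
        exact hGy

theorem hyp_iff_in {D₁ : ℕ → ℕ} (H : GeoK D₁) {E : Set ℕ} (hE : E.Infinite) {w : ℕ}
    (hw : 1 ≤ w) :
    HypImpliesGeneral k w ↔ ForAllY D₁ E k fun _ A => SpecialInNonHyp w A := by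
  constructor
  · intro h N D Q _ _ _ _ L _ _ y hy hgt G _ hN
    rcases hN L w y hw hy with h1 | h1
    · exact absurd (h N L y (gen_of hy) h1) hgt
    · exact h1
  · intro h n L _ _ y hy hph
    obtain ⟨S, N, d, D, m, Q, hSame, hD, hD1, hQ, hsm, hg⟩ := through H hE hw hy
    have hyS : SubVarOf S L w y :=
      ⟨hy.ne, fun p => (hSame L y).2 (fun q hq => hq.2) p p.2, hy.gen, hy.dim⟩
    obtain ⟨G, hG, hGy, hGN⟩ := (hyp_iff hw hy).1 hph
    obtain ⟨e, he⟩ := hG
    obtain ⟨G', hG', hGp⟩ := t_versurj hg.mon e (G ^ d) (by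
      have := he.pow d
      rwa [mul_comm] at this)
    have hGp' : pull m G' = G ^ d := hGp
    have h1 : OnNonHyp S (pull m G') := by
      rw [hGp']
      intro L' _ _ w' y' hw' hy'
      rcases hGN L' w' y' hw' (sub_mono (fun Ω _ _ x hx => (hSame Ω x).1 hx) hy') with h2 | h2
      · exact Or.inl h2
      · right
        have h2 : aeval y' G = 0 := h2
        change aeval y' (G ^ d) = 0
        have := hg.deg
        rw [map_pow, h2, zero_pow (by omega)]
    by_contra hgt
    have h2 := h N D Q hD hD1 hQ hsm L (ver m y) (sub_ver hg hyS) hgt G' ⟨e, hG'⟩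
      ((Pool.Agent.L5helper62.SK.nonHyp_iff hg ⟨e, hG'⟩).2 h1)
    rw [← aeval_pull, hGp', map_pow] at h2
    exact hGy (eq_zero_of_pow_eq_zero h2)

theorem hyp_iff_comp {D₁ : ℕ → ℕ} (H : GeoK D₁) {E : Set ℕ} (hE : E.Infinite) (w : ℕ) :
    (∀ u, 1 ≤ u → u ≤ w → HypImpliesGeneral k u) ↔
      ForAllY D₁ E k fun _ A => ∀ u, 1 ≤ u → u ≤ w → NoHypComponent u A := by
  constructor
  · intro h N D Q _ _ _ _ u hu huw L _ _ y hy hph hcomp
    obtain ⟨G, hG1, hG2, hG3⟩ := (hyp_iff hu (gen_of hy)).1 hph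
    refine comp_false hcomp hG1 hG2 fun H' _ h2 => special_restr _ L y G H' h2 ?_
    intro L' _ _ w' y' hw' hy'
    rcases hG3 L' w' y' hw' hy' with h3 | h3
    · refine Or.inl (h w' hw' ?_ N L' y' (gen_of hy') h3)
      exact (dim_mono (gen_of hy) hy').trans huw
    · exact Or.inr h3
  · intro hNC u hu huw n L _ _ y hy hph
    obtain ⟨S, N, d, D, m, Q, hSame, hD, hD1, hQ, hsm, hg⟩ := through H hE hu hy
    have hyS : SubVarOf S L u y :=
      ⟨hy.ne, fun p => (hSame L y).2 (fun q hq => hq.2) p p.2, hy.gen, hy.dim⟩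
    by_contra hgt
    refine hNC N D Q hD hD1 hQ hsm u hu huw L (ver m y) (sub_ver hg hyS)
      ((hyp_ver_one hg.mon hg.deg).2 hph) (whole ?_ ?_)
    · intro G hG hI
      rcases hI L u (ver m y) hu (sub_ver hg hyS) with h1 | h1
      · exact absurd h1 hgt
      · exact h1
    · intro G hG hGy L' _ _ w' y' hw' hy'
      rcases hg.special L' w' y' hw' hy' with h1 | ⟨x, c, hx, hc, hxS, hyx⟩
      · exact Or.inl h1
      · right
        change aeval y' G = 0
        rw [hyx, Pool.Agent.L5helper62.SK.aeval_zero_of hG hc, ← aeval_pull]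
        obtain ⟨e, he⟩ := hG
        refine (hSame L' x).1 hxS (pull m G) ⟨⟨d * e, pull_hom hg.mon he⟩, ?_⟩
        change aeval y (pull m G) = 0
        rw [aeval_pull]
        exact hGy

end proof

theorem result : ∃ D₁ : ℕ → ℕ,
    (∀ n d : ℕ, 1 ≤ n → 3 ≤ d → ∃ (N : ℕ) (m : Fin (N + 1) → Fin (n + 1) → ℕ),
      Monomials n N d m ∧ ∀ D, D₁ N ≤ D → ∀ (k : Type) [Field k] [IsAlgClosed k] [CharZero k]
        (S : Set (MvPolynomial (Fin (n + 1)) k)), (∀ p ∈ S, ∃ e ≤ d, p.IsHomogeneous e) →
        ∃ Q : Fin (N * (2 * N + 1)) → MvPolynomial (Fin (N + 1)) k,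
          (∀ t, (Q t).IsHomogeneous 2) ∧ SmoothForm (powerForm D Q) ∧
          (∀ x : Fin (n + 1) → k, (∀ p ∈ S, eval x p = 0) →
            eval (veronese m x) (powerForm D Q) = 0) ∧
          (∀ z : Fin (N + 1) → k, z ≠ 0 → (¬ ∃ (x : Fin (n + 1) → k) (c : k), x ≠ 0 ∧ c ≠ 0 ∧
              (∀ p ∈ S, eval x p = 0) ∧ z = c • veronese m x) →
            ∀ (E : Type) [Field E] [Algebra k E] [IsFF k E] (c : Place k E),
              (Maps {powerForm D Q} c z).Finite) ∧
          (∀ (L : Type) [Field L] [Algebra k L] (w : ℕ) (y : Fin (N + 1) → L), 1 ≤ w →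
            SubVarOf {powerForm D Q} L w y → (GeneralType k L w ∧ PseudoGeomHyp k y) ∨
              ∃ (x : Fin (n + 1) → L) (c : L), x ≠ 0 ∧ c ≠ 0 ∧
                (∀ p ∈ S, aeval x p = 0) ∧ y = c • veronese m x) ∧
          (LangFor {powerForm D Q} ↔ LangFor S) ∧
          ∀ G, IsForm G → ∀ G₀, G₀ = aeval
              (fun a => ∏ j, (X j : MvPolynomial (Fin (n + 1)) k) ^ m a j) G →
            (OnNonHyp {powerForm D Q} G ↔ OnNonHyp S G₀) ∧
            (OnSpecial {powerForm D Q} G ↔ OnSpecial S G₀)) ∧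
    ∀ (k : Type) [Field k] [IsAlgClosed k] [CharZero k] (E : Set ℕ), E.Infinite → ∀ w, 1 ≤ w →
      (GeneralImpliesHyp k w ↔ ForAllY D₁ E k fun _ A => NoGeneralComponent w A) ∧
      (HypImpliesGeneral k w ↔ ForAllY D₁ E k fun _ A => SpecialInNonHyp w A) ∧
      ((∀ u, 1 ≤ u → u ≤ w → HypImpliesGeneral k u) ↔
        ForAllY D₁ E k fun _ A => ∀ u, 1 ≤ u → u ≤ w → NoHypComponent u A) := by
  obtain ⟨D₁, H⟩ := Pool.Agent.L5helper62.SK.t_geok
  refine ⟨D₁, fun n d hn hd => ?_, fun k _ _ _ E hE w hw =>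
    ⟨general_iff H hE hw, hyp_iff_in H hE hw, hyp_iff_comp H hE w⟩⟩
  obtain ⟨N, m, hm, hN⟩ := Pool.Agent.N254.SQ.t_num n d hn hd
  refine ⟨N, m, ⟨hm.deg, hm.inj, hm.surj⟩, fun D hD k _ _ _ S hS => ?_⟩
  obtain ⟨Q, hQ, hsm, hg⟩ := H n d hn hd N m hm hN D hD k S hS
  refine ⟨Q, hQ, hsm, fun x hx => hg.sub k x hx, fun z hz hzS E _ _ _ c =>
    Pool.Agent.L5helper62.SK.pt_finite hg hz hzS c, fun L _ _ w y hw hy =>
    Pool.Agent.L5helper62.SK.good_hyp hg hw hy, Pool.Agent.L5helper62.SK.lang_iff hg, ?_⟩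
  rintro G hG _ rfl
  exact ⟨Pool.Agent.L5helper62.SK.nonHyp_iff hg hG, Pool.Agent.L5helper62.SK.special_iff hg hG⟩

end Pool.Agent.Results.MP_5b1cbc_ag.SmoothHypersurfacesSuffice
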